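import Mathlib
import Pool.Agent.GW6.Pairs

/-!
# Sieve upper bounds in short windows
-/

set_option autoImplicit false

namespace Pool.Agent.MPS11

open Finset Pool.Agent.E456 Pool.Agent.GW6

lemma sum_shift (f : ℕ → ℝ) (l : ℕ) (hf : ∀ n, f (n + l) = f n) (a : ℕ) :
    ∑ n ∈ range l, f (n + a) = ∑ n ∈ range l, f n := by
  induction a with
  | zero => simp
  | succ a ih =>
    rw [← ih]
    have h1 := sum_range_succ (fun n => f (n + a)) l
    have h2 := sum_range_succ' (fun n => f (n + a)) l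
    have h3 : f (l + a) = f (0 + a) := by
      rw [show l + a = a + l by ring, hf, zero_add]
    have h4 : ∑ n ∈ range l, f (n + 1 + a) = ∑ n ∈ range l, f (n + (a + 1)) := by
      refine sum_congr rfl fun n _ => ?_
      congr 1
      ring
    rw [← h4]
    linarith

/-- the number of `n` in `(M, 3M]` surviving the sieve -/
lemma window_bound : ∃ K : ℝ, 0 < K ∧ ∀ (M : ℕ), 6 ^ 12 ≤ M → ∃ J : ℕ,
    YY J ≤ M ∧ Real.log M ≤ 24 * Real.log (YY J) ∧
    ∀ (x : ℕ → ℕ → ℝ), (∀ l n, 0 ≤ x l n ∧ x l n ≤ 1) → (∀ l n, x l (n + l) = x l n) →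
    (∀ l, 2 ≤ l → ∑ n ∈ range l, x l n ≤ 3) → ∀ S : Finset ℕ, S ⊆ Ioc M (3 * M) →
    (∀ n ∈ S, ∀ l ∈ pr 6 J, x l n = 0) →
    (S.card : ℝ) ≤ K * M * Real.exp (-∑ l ∈ pr 6 J, (∑ n ∈ range l, x l n) / l) := by
  obtain ⟨K, hK, hs⟩ := sieve_upper_one
  have hl3 : 0 < Real.log 3 := Real.log_pos (by norm_num)
  refine ⟨3 * (K * Real.log 3), by positivity, fun M hM => ?_⟩
  obtain ⟨J, hJ1, hJ2⟩ := exists_J M hM
  have hM0 : 0 < M := lt_of_lt_of_le (by norm_num) hM
  have hM' : (0 : ℝ) < M := by exact_mod_cast hM0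
  have hYM : YY J ≤ M := (Nat.le_self_pow (by norm_num) _).trans hJ1
  refine ⟨J, hYM, ?_, ?_⟩
  · have : (M : ℝ) ≤ (YY J : ℝ) ^ 24 := by exact_mod_cast hJ2.le
    calc Real.log M ≤ Real.log ((YY J : ℝ) ^ 24) := Real.log_le_log hM' this
      _ = 24 * Real.log (YY J) := by rw [Real.log_pow]; norm_num
  intro x hx hper hsum S hS hS0
  have h1 := hs J M (3 * M) hJ1 le_rfl x hx hper hsum
  have h2 : (S.card : ℝ) / (3 * M) ≤
      ∑ n ∈ Ioc M (3 * M), (∏ l ∈ pr 6 J, (1 - x l n)) / n := by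
    calc (S.card : ℝ) / (3 * M) = ∑ n ∈ S, (1 : ℝ) / (3 * M) := by
          rw [sum_const, nsmul_eq_mul]; ring
      _ ≤ ∑ n ∈ S, (∏ l ∈ pr 6 J, (1 - x l n)) / n := by
          refine sum_le_sum fun n hn => ?_
          have hn1 := mem_Ioc.1 (hS hn)
          have hn0 : (0 : ℝ) < n := by exact_mod_cast (by omega : 0 < n)
          have hn3 : (n : ℝ) ≤ 3 * M := by exact_mod_cast hn1.2
          have hprod : ∏ l ∈ pr 6 J, (1 - x l n) = 1 := by
            refine prod_eq_one fun l hl => ?_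
            rw [hS0 n hn l hl, sub_zero]
          rw [hprod]
          exact one_div_le_one_div_of_le hn0 hn3
      _ ≤ _ := by
          refine sum_le_sum_of_subset_of_nonneg hS fun n _ _ => ?_
          refine div_nonneg (prod_nonneg fun l _ => ?_) (Nat.cast_nonneg _)
          have := (hx l n).2
          linarith
  have hlog3 : Real.log (((3 * M : ℕ) : ℝ) / M) = Real.log 3 := by
    congr 1
    push_cast
    field_simp
  rw [hlog3] at h1
  have h9 := h2.trans h1
  rw [div_le_iff₀ (by positivity)] at h9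
  refine h9.trans (le_of_eq ?_)
  ring

lemma pr_sum_lower : ∃ C : ℝ, ∀ J : ℕ,
    Real.log (Real.log (YY J)) - C ≤ ∑ l ∈ pr 6 J, (1 : ℝ) / l := by
  obtain ⟨C, hC, hm⟩ := mertens2
  refine ⟨C + S1 6, fun J => ?_⟩
  have hY6 := YY_ge J
  rw [pr_sum_eq 6 J (by norm_num)]
  have := (abs_le.mp (hm (YY J) (by omega))).1
  unfold YY at this ⊢
  linarith

lemma mem_pr {J l : ℕ} (hl : l ∈ pr 6 J) : 6 < l ∧ l ≤ YY J ∧ l.Prime := by
  simp only [pr, mem_filter, mem_Ioc] at hl
  exact ⟨hl.1.1, hl.1.2, hl.2⟩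

/-- the number of primes in a window of length `2M` -/
theorem window_primes : ∃ C : ℝ, 0 < C ∧ ∀ M a : ℕ, 6 ^ 12 ≤ M →
    (((Ioc (a + M) (a + 3 * M)).filter Nat.Prime).card : ℝ) ≤ C * (M / Real.log M) := by
  obtain ⟨K, hK, hw⟩ := window_bound
  obtain ⟨C, hm⟩ := pr_sum_lower
  refine ⟨K * (Real.exp C * 24), by positivity, fun M a hM => ?_⟩
  obtain ⟨J, hYM, hlog, hb⟩ := hw M hM
  have hM0 : 0 < M := lt_of_lt_of_le (by norm_num) hM
  have hM' : (0 : ℝ) < M := by exact_mod_cast hM0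
  have hY6 := YY_ge J
  have hlY : 0 < Real.log (YY J) := Real.log_pos (by exact_mod_cast (by omega : 1 < YY J))
  have hlM : 0 < Real.log M := Real.log_pos (by
    have : (6 : ℝ) ^ 12 ≤ M := by exact_mod_cast hM
    linarith [show (1 : ℝ) < 6 ^ 12 by norm_num])
  let x : ℕ → ℕ → ℝ := fun l n => if l ∣ n + a then 1 else 0
  have hx : ∀ l n, 0 ≤ x l n ∧ x l n ≤ 1 := by
    intro l n
    simp only [x]
    split_ifs <;> norm_num
  have hper : ∀ l n, x l (n + l) = x l n := by
    intro l n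
    simp only [x]
    have : l ∣ n + l + a ↔ l ∣ n + a := by
      rw [show n + l + a = n + a + l by ring]; exact Nat.dvd_add_self_right
    simp only [this]
  have hxsum : ∀ l, 2 ≤ l → ∑ n ∈ range l, x l n = 1 := by
    intro l hl
    have h1 := sum_shift (fun n => if l ∣ n then (1 : ℝ) else 0) l
      (fun n => by simp only [Nat.dvd_add_self_right]) a
    have h2 : ∑ n ∈ range l, x l n = ∑ n ∈ range l, (if l ∣ n then (1 : ℝ) else 0) := h1
    rw [h2, sum_eq_single 0]
    · simp
    · intro b hb hb0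
      rw [if_neg]
      intro hd
      have := Nat.le_of_dvd (Nat.pos_of_ne_zero hb0) hd
      rw [mem_range] at hb
      omega
    · intro h
      exact absurd (mem_range.2 (by omega)) h
  -- the set
  set S := (Ioc M (3 * M)).filter (fun n => (n + a).Prime) with hS
  have hcard : ((Ioc (a + M) (a + 3 * M)).filter Nat.Prime).card ≤ S.card := by
    refine card_le_card_of_injOn (fun q => q - a) ?_ ?_
    · intro q hq
      simp only [coe_filter, mem_Ioc, Set.mem_setOf_eq] at hq
      rw [hS]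
      simp only [coe_filter, mem_Ioc, Set.mem_setOf_eq]
      refine ⟨by omega, ?_⟩
      rw [show q - a + a = q by omega]
      exact hq.2
    · intro q hq q' hq' h
      simp only [coe_filter, mem_Ioc, Set.mem_setOf_eq] at hq hq'
      simp only at h
      omega
  have h1 := hb x hx hper (fun l hl => by rw [hxsum l hl]; norm_num) S (filter_subset _ _) (by
    intro n hn l hl
    rw [hS, mem_filter, mem_Ioc] at hn
    obtain ⟨h6, hlY', hlp⟩ := mem_pr hl
    simp only [x]
    rw [if_neg]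
    intro hd
    have := (Nat.prime_dvd_prime_iff_eq hlp hn.2).mp hd
    omega)
  have h2 : Real.exp (-∑ l ∈ pr 6 J, (∑ n ∈ range l, x l n) / l)
      ≤ Real.exp C * (24 / Real.log M) := by
    have e0 : ∑ l ∈ pr 6 J, (∑ n ∈ range l, x l n) / l = ∑ l ∈ pr 6 J, (1 : ℝ) / l := by
      refine sum_congr rfl fun l hl => ?_
      rw [hxsum l (by have := (mem_pr hl).1; omega)]
    rw [e0]
    have e1 : Real.exp (-∑ l ∈ pr 6 J, (1 : ℝ) / l) ≤
        Real.exp (C - Real.log (Real.log (YY J))) := by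
      apply Real.exp_le_exp.mpr
      have := hm J
      linarith
    refine e1.trans ?_
    rw [Real.exp_sub, Real.exp_log hlY, mul_div_assoc' , div_le_div_iff₀ hlY hlM, mul_assoc]
    refine mul_le_mul_of_nonneg_left ?_ (Real.exp_pos C).le
    linarith
  calc (((Ioc (a + M) (a + 3 * M)).filter Nat.Prime).card : ℝ) ≤ (S.card : ℝ) := by
        exact_mod_cast hcard
    _ ≤ _ := h1
    _ ≤ K * M * (Real.exp C * (24 / Real.log M)) := by gcongr
    _ = _ := by ring

/-- the number of prime pairs in a window of length `2M` -/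
theorem window_pairs : ∃ C : ℝ, 0 < C ∧ ∀ M a h : ℕ, 6 ^ 12 ≤ M → 1 ≤ h →
    (((Ioc (a + M) (a + 3 * M)).filter (fun q => q.Prime ∧ (q + h).Prime)).card : ℝ)
      ≤ C * (M / Real.log M ^ 2) * fh h := by
  obtain ⟨K, hK, hw⟩ := window_bound
  obtain ⟨C, hm⟩ := pr_sum_lower
  refine ⟨K * (Real.exp (2 * C) * 576), by positivity, fun M a h hM hh => ?_⟩
  obtain ⟨J, hYM, hlog, hb⟩ := hw M hM
  have hM0 : 0 < M := lt_of_lt_of_le (by norm_num) hM
  have hM' : (0 : ℝ) < M := by exact_mod_cast hM0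
  have hY6 := YY_ge J
  have hlY : 0 < Real.log (YY J) := Real.log_pos (by exact_mod_cast (by omega : 1 < YY J))
  have hlM : 0 < Real.log M := Real.log_pos (by
    have : (6 : ℝ) ^ 12 ≤ M := by exact_mod_cast hM
    linarith [show (1 : ℝ) < 6 ^ 12 by norm_num])
  let x : ℕ → ℕ → ℝ := fun l n => xw h l (n + a)
  have hx : ∀ l n, 0 ≤ x l n ∧ x l n ≤ 1 := fun l n => ⟨xw_nonneg h l _, xw_le_one h l _⟩
  have hper : ∀ l n, x l (n + l) = x l n := by
    intro l n
    simp only [x]
    rw [show n + l + a = n + a + l by ring, xw_per]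
  have hxsum : ∀ l, ∑ n ∈ range l, x l n = ∑ n ∈ range l, xw h l n := fun l =>
    sum_shift (fun n => xw h l n) l (fun n => xw_per h l n) a
  set S := (Ioc M (3 * M)).filter (fun n => (n + a).Prime ∧ (n + a + h).Prime) with hS
  have hcard : ((Ioc (a + M) (a + 3 * M)).filter (fun q => q.Prime ∧ (q + h).Prime)).card ≤
      S.card := by
    refine card_le_card_of_injOn (fun q => q - a) ?_ ?_
    · intro q hq
      simp only [coe_filter, mem_Ioc, Set.mem_setOf_eq] at hq
      rw [hS]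
      simp only [coe_filter, mem_Ioc, Set.mem_setOf_eq]
      refine ⟨by omega, ?_⟩
      rw [show q - a + a = q by omega]
      exact hq.2
    · intro q hq q' hq' h
      simp only [coe_filter, mem_Ioc, Set.mem_setOf_eq] at hq hq'
      simp only at h
      omega
  have h1 := hb x hx hper (fun l _ => by rw [hxsum l]; exact xw_sum_le h l) S
    (filter_subset _ _) (by
    intro n hn l hl
    rw [hS, mem_filter, mem_Ioc] at hn
    obtain ⟨h6, hlY', hlp⟩ := mem_pr hl
    simp only [x]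
    unfold xw
    rw [if_neg]
    rintro ⟨hl1, hl2 | hl2⟩
    · have := (Nat.prime_dvd_prime_iff_eq hl1 hn.2.1).mp hl2
      omega
    · have := (Nat.prime_dvd_prime_iff_eq hl1 hn.2.2).mp hl2
      omega)
  have h3 : 2 * (∑ l ∈ pr 6 J, (1 : ℝ) / l) - ∑ l ∈ h.primeFactors, (1 : ℝ) / l
      ≤ ∑ l ∈ pr 6 J, (∑ n ∈ range l, x l n) / l := by
    have h4 : ∑ l ∈ pr 6 J, (if l ∣ h then (1 : ℝ) else 0) / l
        ≤ ∑ l ∈ h.primeFactors, (1 : ℝ) / l := by
      calc ∑ l ∈ pr 6 J, (if l ∣ h then (1 : ℝ) else 0) / l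
          = ∑ l ∈ (pr 6 J).filter (fun l => l ∣ h), (1 : ℝ) / l := by
            rw [sum_filter]
            refine sum_congr rfl fun l _ => ?_
            split_ifs <;> simp
        _ ≤ ∑ l ∈ h.primeFactors, (1 : ℝ) / l := by
            refine sum_le_sum_of_subset_of_nonneg ?_ fun l _ _ => by positivity
            intro l hl
            simp only [pr, mem_filter, mem_Ioc] at hl
            rw [Nat.mem_primeFactors]
            exact ⟨hl.1.2, hl.2, by omega⟩
    calc 2 * (∑ l ∈ pr 6 J, (1 : ℝ) / l) - ∑ l ∈ h.primeFactors, (1 : ℝ) / l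
        ≤ 2 * (∑ l ∈ pr 6 J, (1 : ℝ) / l) - ∑ l ∈ pr 6 J, (if l ∣ h then (1 : ℝ) else 0) / l := by
          linarith
      _ = ∑ l ∈ pr 6 J, (2 - (if l ∣ h then (1 : ℝ) else 0)) / l := by
          rw [mul_sum, ← sum_sub_distrib]
          refine sum_congr rfl fun l _ => ?_
          ring
      _ ≤ _ := by
          refine sum_le_sum fun l hl => ?_
          have h5 := xw_sum_ge h l (mem_pr hl).2.2
          rw [hxsum l]
          gcongr
  have h2 : Real.exp (-∑ l ∈ pr 6 J, (∑ n ∈ range l, x l n) / l)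
      ≤ Real.exp (2 * C) * (576 / Real.log M ^ 2) * fh h := by
    have e1 : Real.exp (-∑ l ∈ pr 6 J, (∑ n ∈ range l, x l n) / l) ≤
        Real.exp (2 * C) * (1 / Real.log (YY J) ^ 2) * fh h := by
      have e2 : 1 / (Real.log (YY J)) ^ 2 = Real.exp (-(2 * Real.log (Real.log (YY J)))) := by
        rw [Real.exp_neg, one_div]
        congr 1
        rw [show 2 * Real.log (Real.log (YY J)) = Real.log (Real.log (YY J)) * (2 : ℕ) by
          push_cast; ring, Real.exp_mul, Real.exp_log hlY, Real.rpow_natCast]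
      rw [e2, fh, ← Real.exp_add, ← Real.exp_add]
      apply Real.exp_le_exp.mpr
      have := hm J
      linarith
    refine e1.trans ?_
    have hf := fh_ge_one h
    have h8 : 1 / (Real.log (YY J)) ^ 2 ≤ 576 / (Real.log M) ^ 2 := by
      rw [div_le_div_iff₀ (by positivity) (by positivity)]
      have : (Real.log M) ^ 2 ≤ (24 * Real.log (YY J)) ^ 2 := by gcongr
      nlinarith
    gcongr
  have hf := fh_ge_one h
  calc (((Ioc (a + M) (a + 3 * M)).filter (fun q => q.Prime ∧ (q + h).Prime)).card : ℝ)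
      ≤ (S.card : ℝ) := by exact_mod_cast hcard
    _ ≤ _ := h1
    _ ≤ K * M * (Real.exp (2 * C) * (576 / Real.log M ^ 2) * fh h) := by gcongr
    _ = _ := by ring

end Pool.Agent.MPS11
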