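import Mathlib
import Pool.Agent.MPS11.Window

/-!
# `fh h ≤ C log log X` for `h ≤ X`
-/

set_option autoImplicit false

namespace Pool.Agent.MPS11

open Finset Pool.Agent.E456 Pool.Agent.GW6

/-- a number `h ≤ X` has at most `log X / log z` prime divisors above `z`. -/
lemma card_large_primes (h z : ℕ) (hh : 1 ≤ h) (hz : 2 ≤ z) :
    ((h.primeFactors.filter (fun l => z < l)).card : ℝ) * Real.log z ≤ Real.log h := by
  have hz0 : (0 : ℝ) < z := by exact_mod_cast (by omega : 0 < z)
  have h1 : ∏ l ∈ h.primeFactors.filter (fun l => z < l), l ∣ h := by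
    refine dvd_trans (Finset.prod_dvd_prod_of_subset _ _ _ (filter_subset _ _)) ?_
    exact Nat.prod_primeFactors_dvd h
  have h2 : z ^ (h.primeFactors.filter (fun l => z < l)).card ≤ h := by
    calc z ^ (h.primeFactors.filter (fun l => z < l)).card
        = ∏ _l ∈ h.primeFactors.filter (fun l => z < l), z := by rw [prod_const]
      _ ≤ ∏ l ∈ h.primeFactors.filter (fun l => z < l), l := by
          refine prod_le_prod' fun l hl => ?_
          exact (mem_filter.1 hl).2.le
      _ ≤ h := Nat.le_of_dvd (by omega) h1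
  have h3 : Real.log ((z : ℝ) ^ (h.primeFactors.filter (fun l => z < l)).card) ≤ Real.log h := by
    apply Real.log_le_log (by positivity)
    exact_mod_cast h2
  rwa [Real.log_pow] at h3

lemma fh_le : ∃ C X₀ : ℝ, 0 < C ∧ ∀ X : ℕ, X₀ ≤ X → ∀ h : ℕ, 1 ≤ h → h ≤ X →
    fh h ≤ C * Real.log (Real.log X) := by
  obtain ⟨C, hC, hm⟩ := mertens2
  refine ⟨Real.exp (C + 2), Real.exp (Real.exp 2), Real.exp_pos _, ?_⟩
  intro X hX h hh hhX
  have hXpos : (0 : ℝ) < X := lt_of_lt_of_le (Real.exp_pos _) hX
  have hL : Real.exp 2 ≤ Real.log X := by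
    rw [Real.le_log_iff_exp_le hXpos]
    exact hX
  have hLpos : 0 < Real.log X := lt_of_lt_of_le (Real.exp_pos _) hL
  have he2 : (4 : ℝ) < Real.exp 2 := by
    have := Real.exp_one_gt_d9
    rw [show (2 : ℝ) = 1 + 1 by norm_num, Real.exp_add]
    nlinarith
  have hLL : 2 ≤ Real.log (Real.log X) := by
    rw [Real.le_log_iff_exp_le hLpos]
    exact hL
  obtain ⟨z, hz⟩ : ∃ z : ℕ, z = ⌊Real.log X⌋₊ := ⟨_, rfl⟩
  have hz1 : (z : ℝ) ≤ Real.log X := by rw [hz]; exact Nat.floor_le hLpos.le
  have hz2 : Real.log X < z + 1 := by rw [hz]; exact Nat.lt_floor_add_one _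
  have hz3 : (3 : ℝ) < z := by linarith
  have hz4 : 2 ≤ z := by
    have : (3 : ℕ) < z := by exact_mod_cast hz3
    omega
  have hlz : 0 < Real.log z := Real.log_pos (by linarith)
  -- the sum
  have h1 : ∑ l ∈ h.primeFactors, (1 : ℝ) / l ≤
      ∑ l ∈ (Icc 1 z).filter Nat.Prime, (1 : ℝ) / l +
        ∑ l ∈ h.primeFactors.filter (fun l => z < l), (1 : ℝ) / l := by
    rw [← sum_filter_add_sum_filter_not h.primeFactors (fun l => z < l), add_comm]
    gcongr
    · intro l hl
      rw [mem_filter, Nat.mem_primeFactors, not_lt] at hl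
      rw [mem_filter, mem_Icc]
      exact ⟨⟨hl.1.1.one_le, hl.2⟩, hl.1.1⟩
  have h2 : ∑ l ∈ h.primeFactors.filter (fun l => z < l), (1 : ℝ) / l ≤ 2 := by
    calc ∑ l ∈ h.primeFactors.filter (fun l => z < l), (1 : ℝ) / l
        ≤ ∑ _l ∈ h.primeFactors.filter (fun l => z < l), (1 : ℝ) / z := by
          refine sum_le_sum fun l hl => ?_
          have : (z : ℝ) ≤ l := by exact_mod_cast (mem_filter.1 hl).2.le
          exact one_div_le_one_div_of_le (by linarith) this
      _ = (h.primeFactors.filter (fun l => z < l)).card / z := by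
          rw [sum_const, nsmul_eq_mul]
          ring
      _ ≤ 2 := by
          rw [div_le_iff₀ (by linarith)]
          have h3 := card_large_primes h z hh hz4
          have h4 : Real.log h ≤ Real.log X := by
            apply Real.log_le_log (by exact_mod_cast hh)
            exact_mod_cast hhX
          have h5 : (1 : ℝ) ≤ Real.log z := by
            rw [Real.le_log_iff_exp_le (by linarith)]
            have := Real.exp_one_lt_d9
            linarith
          have h6 : (0 : ℝ) ≤ ((h.primeFactors.filter (fun l => z < l)).card : ℝ) :=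
            Nat.cast_nonneg _
          nlinarith
  have h3 : ∑ l ∈ (Icc 1 z).filter Nat.Prime, (1 : ℝ) / l ≤ Real.log (Real.log z) + C := by
    have h5 := (abs_le.mp (hm z hz4)).2
    have h6 : S1 z = ∑ l ∈ (Icc 1 z).filter Nat.Prime, (1 : ℝ) / l := by
      unfold S1
      have h7 : Ioc 0 z = Icc 1 z := by
        ext n
        simp only [mem_Ioc, mem_Icc]
        omega
      rw [h7]
    linarith
  have h4 : Real.log (Real.log z) ≤ Real.log (Real.log (Real.log X)) := by
    apply Real.log_le_log hlz
    apply Real.log_le_log (by linarith) hz1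
  unfold fh
  calc Real.exp (∑ l ∈ h.primeFactors, (1 : ℝ) / l)
      ≤ Real.exp ((C + 2) + Real.log (Real.log (Real.log X))) := by
        apply Real.exp_le_exp.mpr
        linarith
    _ = Real.exp (C + 2) * Real.log (Real.log X) := by
        rw [Real.exp_add, Real.exp_log (by linarith)]

end Pool.Agent.MPS11
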