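import Mathlib
import Pool.Agent.MPS11.Fh
import Pool.Agent.GW6.Cheb

/-!
# First and second moment for nondecreasing families of primes
-/

set_option autoImplicit false

namespace Pool.Agent.MPS11

open Finset Pool.Agent.E456 Pool.Agent.GW6

/-- nondecreasing prime valued functions -/
structure Fam (X K : ℕ) (f : Fin K → ℕ → ℕ) : Prop where
  mono : ∀ j s t, X ≤ 400 * s ^ 2 → s ≤ t → t ^ 2 ≤ 2 * X → f j s ≤ f j t
  prime : ∀ j s, X ≤ 400 * s ^ 2 → s ^ 2 ≤ 2 * X → (f j s).Prime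
  gt : ∀ j s, X ≤ 400 * s ^ 2 → s ^ 2 ≤ 2 * X → s < f j s
  le : ∀ j s, X ≤ 400 * s ^ 2 → s ^ 2 ≤ 2 * X → 4 * f j s ≤ s ^ 2
  inj : ∀ s, X ≤ 400 * s ^ 2 → s ^ 2 ≤ 2 * X → Function.Injective (fun j => f j s)

/-- discrete intermediate value property -/
lemma exists_eq_of_step (g : ℕ → ℕ) (q a b : ℕ) (hab : a ≤ b) (ha : g a < q) (hb : q ≤ g b)
    (hstep : ∀ n, a ≤ n → n < b → g (n + 1) ≤ g n + 2)
    (hodd : ∀ n, a ≤ n → n ≤ b → g n % 2 = 1) (hq : q % 2 = 1) :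
    ∃ n, a < n ∧ n ≤ b ∧ g n = q := by
  induction b, hab using Nat.le_induction with
  | base => omega
  | succ b hab ih =>
    by_cases h : q ≤ g b
    · obtain ⟨n, h1, h2, h3⟩ := ih h (fun n h4 h5 => hstep n h4 (by omega))
        (fun n h4 h5 => hodd n h4 (by omega))
      exact ⟨n, h1, by omega, h3⟩
    · have h1 := hstep b hab (by omega)
      have h2 := hodd (b + 1) (by omega) le_rfl
      exact ⟨b + 1, by omega, le_rfl, by omega⟩

lemma sqrt_range {X n : ℕ} (hX : 10 ^ 6 ≤ X) (hn1 : X / 400 < n) (hn2 : n ≤ X) :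
    X ≤ 400 * (Nat.sqrt (2 * n)) ^ 2 ∧ (Nat.sqrt (2 * n)) ^ 2 ≤ 2 * X ∧
      (Nat.sqrt (2 * n)) ^ 2 ≤ 2 * n ∧ 2 * n < (Nat.sqrt (2 * n) + 1) ^ 2 ∧
      3 ≤ Nat.sqrt (2 * n) := by
  obtain ⟨s, hs⟩ : ∃ s, s = Nat.sqrt (2 * n) := ⟨_, rfl⟩
  rw [← hs]
  have h1 : s ^ 2 ≤ 2 * n := by rw [hs]; exact Nat.sqrt_le' _
  have h2 : 2 * n < (s + 1) ^ 2 := by rw [hs]; exact Nat.lt_succ_sqrt' _
  have h3 : 3 ≤ s := by
    by_contra h
    have h4 : s + 1 ≤ 3 := by omega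
    have h5 : (s + 1) ^ 2 ≤ 3 ^ 2 := Nat.pow_le_pow_left h4 2
    omega
  have h4 : (s + 1) ^ 2 ≤ 2 * s ^ 2 := by nlinarith
  refine ⟨by omega, by omega, h1, h2, h3⟩

variable {X K : ℕ} {f : Fin K → ℕ → ℕ}

lemma Fam.g_facts (hf : Fam X K f) (hX : 10 ^ 6 ≤ X) (j : Fin K) {n : ℕ} (hn1 : X / 400 < n)
    (hn2 : n ≤ X) :
    Nat.sqrt (2 * n) < f j (Nat.sqrt (2 * n)) ∧ 2 * f j (Nat.sqrt (2 * n)) ≤ n ∧
      (2 * n - f j (Nat.sqrt (2 * n))) % 2 = 1 := by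
  obtain ⟨h1, h2, h3, h4, h5⟩ := sqrt_range hX hn1 hn2
  have h6 := hf.gt j _ h1 h2
  have h7 := hf.le j _ h1 h2
  have h8 := hf.prime j _ h1 h2
  have h9 := h8.eq_two_or_odd
  refine ⟨h6, by omega, by omega⟩

lemma Fam.cover (hf : Fam X K f) (hX : 10 ^ 6 ≤ X) (j : Fin K) :
    ((Ioc (X / 160) X).filter Nat.Prime).card ≤
      ((Ioc (X / 400) X).filter (fun n => (2 * n - f j (Nat.sqrt (2 * n))).Prime)).card := by
  refine card_le_card_of_surjOn (fun n => 2 * n - f j (Nat.sqrt (2 * n))) ?_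
  intro q hq
  simp only [coe_filter, mem_Ioc, Set.mem_ofPred_eq] at hq
  obtain ⟨⟨hq1, hq2⟩, hq3⟩ := hq
  have hodd : q % 2 = 1 := by
    rcases hq3.eq_two_or_odd with h | h
    · omega
    · exact h
  have ha := hf.g_facts hX j (n := X / 400 + 1) (by omega) (by omega)
  have hb := hf.g_facts hX j (n := X) (by omega) le_rfl
  obtain ⟨n, h1, h2, h3⟩ := exists_eq_of_step (fun n => 2 * n - f j (Nat.sqrt (2 * n))) q
    (X / 400 + 1) X (by omega) (by omega) (by omega)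
    (by
      intro n hn1 hn2
      have h4 := hf.g_facts hX j (n := n) (by omega) (by omega)
      have h5 := hf.g_facts hX j (n := n + 1) (by omega) (by omega)
      have h6 := sqrt_range hX (n := n) (by omega) (by omega)
      have h7 := sqrt_range hX (n := n + 1) (by omega) (by omega)
      have h8 := hf.mono j (Nat.sqrt (2 * n)) (Nat.sqrt (2 * (n + 1))) h6.1
        (Nat.sqrt_le_sqrt (by omega)) h7.2.1
      omega)
    (by
      intro n hn1 hn2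
      exact (hf.g_facts hX j (n := n) (by omega) (by omega)).2.2) hodd
  simp only [coe_filter, mem_Ioc, Set.mem_image, Set.mem_ofPred_eq]
  exact ⟨n, ⟨⟨by omega, h2⟩, by rw [h3]; exact hq3⟩, h3⟩

/-- the number of `j` with `2 n - f_j` prime -/
noncomputable def rr (f : Fin K → ℕ → ℕ) (n : ℕ) : ℝ :=
  ∑ j, if (2 * n - f j (Nat.sqrt (2 * n))).Prime then (1 : ℝ) else 0

lemma first_moment : ∀ X K : ℕ, 10 ^ 6 ≤ X → ∀ f : Fin K → ℕ → ℕ, Fam X K f →
    K * (1 / 20 * (X / Real.log X)) ≤ ∑ n ∈ Ioc (X / 400) X, rr f n := by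
  intro X K hX f hf
  have h1 : ∑ n ∈ Ioc (X / 400) X, rr f n = ∑ j, (((Ioc (X / 400) X).filter
      (fun n => (2 * n - f j (Nat.sqrt (2 * n))).Prime)).card : ℝ) := by
    unfold rr
    rw [sum_comm]
    refine sum_congr rfl fun j _ => ?_
    rw [card_filter]
    push_cast
    rfl
  rw [h1]
  have h2 := cheb_lower X (by omega)
  calc (K : ℝ) * (1 / 20 * (X / Real.log X)) = ∑ _j : Fin K, (1 / 20 * (X / Real.log X)) := by
        rw [sum_const, card_univ, Fintype.card_fin, nsmul_eq_mul]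
    _ ≤ _ := by
        refine sum_le_sum fun j _ => h2.trans ?_
        exact_mod_cast hf.cover hX j

/-- the window of `n` with `⌊√(2n)⌋ = s` -/
lemma window_card (s p : ℕ) (hs : 4 ≤ s) (hp : 4 * p ≤ s ^ 2) (T : Finset ℕ)
    (hT : ∀ n ∈ T, s ^ 2 ≤ 2 * n ∧ 2 * n < (s + 1) ^ 2) (P : ℕ → Prop) [DecidablePred P]
    (hP : ∀ n ∈ T, P (2 * n - p)) :
    ∃ a, T.card ≤ ((Ioc (a + (s + 1)) (a + 3 * (s + 1))).filter P).card := by
  have h1 : p + (s + 2) ≤ s ^ 2 := by nlinarith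
  refine ⟨s ^ 2 - p - (s + 2), ?_⟩
  refine card_le_card_of_injOn (fun n => 2 * n - p) ?_ ?_
  · intro n hn
    have hn' := hT n hn
    have h2 : (s + 1) ^ 2 = s ^ 2 + 2 * s + 1 := by ring
    simp only [coe_filter, mem_Ioc, Set.mem_ofPred_eq]
    exact ⟨⟨by omega, by omega⟩, hP n hn⟩
  · intro n hn m hm hnm
    have hn' := hT n hn
    have hm' := hT m hm
    simp only at hnm
    omega

lemma log_le_four {X s : ℕ} (hX : Real.exp 12 ≤ X) (hs : X ≤ 400 * s ^ 2) :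
    Real.log X ≤ 4 * Real.log ((s + 1 : ℕ) : ℝ) := by
  have hXpos : (0 : ℝ) < X := lt_of_lt_of_le (Real.exp_pos _) hX
  have h12 : (12 : ℝ) ≤ Real.log X := by
    rw [Real.le_log_iff_exp_le hXpos]
    exact hX
  have h1 : (X : ℝ) ≤ 400 * ((s + 1 : ℕ) : ℝ) ^ 2 := by
    have h0 : s ^ 2 ≤ (s + 1) ^ 2 := Nat.pow_le_pow_left (by omega) 2
    have : X ≤ 400 * (s + 1) ^ 2 := by omega
    exact_mod_cast this
  have hs0 : (0 : ℝ) < ((s + 1 : ℕ) : ℝ) := by positivity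
  have h2 : Real.log X ≤ Real.log 400 + 2 * Real.log ((s + 1 : ℕ) : ℝ) := by
    calc Real.log X ≤ Real.log (400 * ((s + 1 : ℕ) : ℝ) ^ 2) := Real.log_le_log hXpos h1
      _ = _ := by
          rw [Real.log_mul (by norm_num) (by positivity), Real.log_pow]
          push_cast
          ring
  have h3 : Real.log 400 ≤ 6 := by
    rw [Real.log_le_iff_le_exp (by norm_num)]
    have h4 := Real.exp_one_gt_d9
    have h5 : Real.exp 6 = Real.exp 1 ^ 6 := by rw [← Real.exp_nat_mul]; norm_num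
    rw [h5]
    have h6 : (2.718 : ℝ) ^ 6 ≤ Real.exp 1 ^ 6 := by
      apply pow_le_pow_left₀ (by norm_num)
      linarith
    have h7 : (400 : ℝ) ≤ 2.718 ^ 6 := by norm_num
    linarith
  linarith

end Pool.Agent.MPS11
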