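import Mathlib
import Pool.Agent.MPS11.Moments

/-!
# Second moment and the lower bound
-/

set_option autoImplicit false

namespace Pool.Agent.MPS11

open Finset Pool.Agent.E456 Pool.Agent.GW6

variable {X K : ℕ} {f : Fin K → ℕ → ℕ}

/-- bound of a count of `n` by bounds in all windows -/
lemma card_le_windows (hX : 10 ^ 6 ≤ X) (Q : ℕ → Prop) [DecidablePred Q] (B : ℝ) (hB : 0 ≤ B)
    (h : ∀ s, X ≤ 400 * s ^ 2 → s ^ 2 ≤ 2 * X →
      (((Ioc (X / 400) X).filter (fun n => Q n ∧ Nat.sqrt (2 * n) = s)).card : ℝ)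
        ≤ B * ((s + 1 : ℕ) : ℝ)) :
    (((Ioc (X / 400) X).filter Q).card : ℝ) ≤ B * (4 * X) := by
  obtain ⟨S, hS⟩ : ∃ S, S = Nat.sqrt (2 * X) := ⟨_, rfl⟩
  have hS2 : S ^ 2 ≤ 2 * X := by rw [hS]; exact Nat.sqrt_le' _
  have h1 : ((Ioc (X / 400) X).filter Q).card = ∑ s ∈ Icc 1 S,
      (((Ioc (X / 400) X).filter Q).filter (fun n => Nat.sqrt (2 * n) = s)).card := by
    apply card_eq_sum_card_fiberwise
    intro n hn
    simp only [coe_filter, mem_Ioc, Set.mem_ofPred_eq] at hn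
    have h2 := sqrt_range hX hn.1.1 hn.1.2
    simp only [coe_Icc, Set.mem_Icc]
    refine ⟨by omega, ?_⟩
    rw [hS]
    exact Nat.sqrt_le_sqrt (by omega)
  rw [h1]
  push_cast
  calc ∑ s ∈ Icc 1 S, ((((Ioc (X / 400) X).filter Q).filter
        (fun n => Nat.sqrt (2 * n) = s)).card : ℝ)
      ≤ ∑ s ∈ Icc 1 S, B * ((s + 1 : ℕ) : ℝ) := by
        refine sum_le_sum fun s _ => ?_
        rw [filter_filter]
        by_cases he : ((Ioc (X / 400) X).filter (fun n => Q n ∧ Nat.sqrt (2 * n) = s)).Nonempty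
        · obtain ⟨n, hn⟩ := he
          simp only [mem_filter, mem_Ioc] at hn
          have h2 := sqrt_range hX hn.1.1 hn.1.2
          rw [hn.2.2] at h2
          exact h s h2.1 h2.2.1
        · rw [not_nonempty_iff_eq_empty] at he
          rw [he, card_empty]
          push_cast
          positivity
    _ ≤ ∑ s ∈ Icc 1 S, B * (2 * S) := by
        refine sum_le_sum fun s hs => ?_
        rw [mem_Icc] at hs
        have h3 : ((s + 1 : ℕ) : ℝ) ≤ 2 * S := by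
          have : s + 1 ≤ 2 * S := by omega
          exact_mod_cast this
        exact mul_le_mul_of_nonneg_left h3 hB
    _ = B * (2 * (S : ℝ) ^ 2) := by
        rw [sum_const, Nat.card_Icc, nsmul_eq_mul]
        push_cast
        ring
    _ ≤ B * (4 * X) := by
        have h4 : ((S : ℝ)) ^ 2 ≤ 2 * X := by exact_mod_cast hS2
        refine mul_le_mul_of_nonneg_left ?_ hB
        linarith

lemma X_large (X : ℕ) (hX : (400 * (6 ^ 12) ^ 2 : ℕ) ≤ X) (s : ℕ) (hs : X ≤ 400 * s ^ 2) :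
    6 ^ 12 ≤ s + 1 := by
  by_contra h
  have h1 : s < 6 ^ 12 := by omega
  have h2 : s ^ 2 < (6 ^ 12) ^ 2 := Nat.pow_lt_pow_left h1 (by norm_num)
  omega

lemma diag_bound : ∃ C : ℝ, 0 < C ∧ ∀ X K : ℕ, (400 * (6 ^ 12) ^ 2 : ℕ) ≤ X →
    Real.exp 12 ≤ X → ∀ f : Fin K → ℕ → ℕ, Fam X K f → ∀ j,
    (((Ioc (X / 400) X).filter (fun n => (2 * n - f j (Nat.sqrt (2 * n))).Prime)).card : ℝ)
      ≤ C * (X / Real.log X) := by
  obtain ⟨C, hC, hw⟩ := window_primes
  refine ⟨16 * C, by positivity, fun X K hX hX2 f hf j => ?_⟩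
  have hXpos : (0 : ℝ) < X := lt_of_lt_of_le (Real.exp_pos _) hX2
  have hL : 0 < Real.log X := by
    have : (12 : ℝ) ≤ Real.log X := by
      rw [Real.le_log_iff_exp_le hXpos]
      exact hX2
    linarith
  have hX6 : 10 ^ 6 ≤ X := le_trans (by norm_num) hX
  have h1 := card_le_windows hX6
    (fun n => (2 * n - f j (Nat.sqrt (2 * n))).Prime) (4 * C / Real.log X) (by positivity) ?_
  · refine h1.trans (le_of_eq ?_)
    ring
  intro s hs1 hs2
  have hs3 := X_large X hX s hs1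
  have hs4 : 4 ≤ s := le_trans (by norm_num) (Nat.le_of_succ_le_succ hs3)
  obtain ⟨a, ha⟩ := window_card s (f j s) hs4 (hf.le j s hs1 hs2)
    ((Ioc (X / 400) X).filter
      (fun n => (2 * n - f j (Nat.sqrt (2 * n))).Prime ∧ Nat.sqrt (2 * n) = s))
    (by
      intro n hn
      simp only [mem_filter, mem_Ioc] at hn
      have h2 := sqrt_range hX6 hn.1.1 hn.1.2
      rw [hn.2.2] at h2
      exact ⟨h2.2.2.1, h2.2.2.2.1⟩) Nat.Prime
    (by
      intro n hn
      simp only [mem_filter, mem_Ioc] at hn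
      have := hn.2.1
      rwa [hn.2.2] at this)
  have h3 := hw (s + 1) a hs3
  have h4 := log_le_four hX2 hs1
  have h5 : 0 < Real.log ((s + 1 : ℕ) : ℝ) := by linarith
  have h6 : ((s + 1 : ℕ) : ℝ) / Real.log ((s + 1 : ℕ) : ℝ) ≤
      4 / Real.log X * ((s + 1 : ℕ) : ℝ) := by
    rw [div_le_iff₀ h5, div_mul_eq_mul_div, div_mul_eq_mul_div, le_div_iff₀ hL]
    have h7 : (0 : ℝ) ≤ ((s + 1 : ℕ) : ℝ) := Nat.cast_nonneg _
    have h8 := mul_le_mul_of_nonneg_left h4 h7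
    linarith
  calc (((Ioc (X / 400) X).filter
      (fun n => (2 * n - f j (Nat.sqrt (2 * n))).Prime ∧ Nat.sqrt (2 * n) = s)).card : ℝ)
      ≤ (((Ioc (a + (s + 1)) (a + 3 * (s + 1))).filter Nat.Prime).card : ℝ) := by
        exact_mod_cast ha
    _ ≤ C * (((s + 1 : ℕ) : ℝ) / Real.log ((s + 1 : ℕ) : ℝ)) := h3
    _ ≤ C * (4 / Real.log X * ((s + 1 : ℕ) : ℝ)) := by gcongr
    _ = 4 * C / Real.log X * ((s + 1 : ℕ) : ℝ) := by ring

/-- one window, one pair with `p > p'` -/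
lemma pair_window : ∃ C X₀ : ℝ, 0 < C ∧ ∀ X : ℕ, X₀ ≤ X → (400 * (6 ^ 12) ^ 2 : ℕ) ≤ X →
    Real.exp 12 ≤ X → ∀ s p p' : ℕ, X ≤ 400 * s ^ 2 → s ^ 2 ≤ 2 * X → 4 * p ≤ s ^ 2 → p' < p →
    ∀ T : Finset ℕ, (∀ n ∈ T, s ^ 2 ≤ 2 * n ∧ 2 * n < (s + 1) ^ 2) →
    (∀ n ∈ T, (2 * n - p).Prime ∧ (2 * n - p').Prime) →
    (T.card : ℝ) ≤ C * (Real.log (Real.log X) / Real.log X ^ 2) * ((s + 1 : ℕ) : ℝ) := by
  obtain ⟨C, hC, hw⟩ := window_pairs
  obtain ⟨C', X₀, hC', hfh⟩ := fh_le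
  refine ⟨16 * C * C', X₀, by positivity, ?_⟩
  intro X hX0 hX hX2 s p p' hs1 hs2 hp hpp T hT hTp
  have hXpos : (0 : ℝ) < X := lt_of_lt_of_le (Real.exp_pos _) hX2
  have hL : 0 < Real.log X := by
    have : (12 : ℝ) ≤ Real.log X := by
      rw [Real.le_log_iff_exp_le hXpos]
      exact hX2
    linarith
  have hs3 := X_large X hX s hs1
  have hs4 : 4 ≤ s := le_trans (by norm_num) (Nat.le_of_succ_le_succ hs3)
  obtain ⟨a, ha⟩ := window_card s p hs4 hp T hT (fun q => q.Prime ∧ (q + (p - p')).Prime)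
    (by
      intro n hn
      have h1 := hTp n hn
      have h2 := hT n hn
      refine ⟨h1.1, ?_⟩
      have h3 : 2 * n - p + (p - p') = 2 * n - p' := by omega
      rw [h3]
      exact h1.2)
  have h3 := hw (s + 1) a (p - p') hs3 (by omega)
  have h4 := log_le_four hX2 hs1
  have h5 : 0 < Real.log ((s + 1 : ℕ) : ℝ) := by linarith
  have h6 : ((s + 1 : ℕ) : ℝ) / Real.log ((s + 1 : ℕ) : ℝ) ^ 2 ≤
      16 / Real.log X ^ 2 * ((s + 1 : ℕ) : ℝ) := by
    rw [div_le_iff₀ (by positivity), div_mul_eq_mul_div, div_mul_eq_mul_div,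
      le_div_iff₀ (by positivity)]
    have h7 : (0 : ℝ) ≤ ((s + 1 : ℕ) : ℝ) := Nat.cast_nonneg _
    have h8 : Real.log X ^ 2 ≤ 16 * Real.log ((s + 1 : ℕ) : ℝ) ^ 2 := by
      calc Real.log X ^ 2 ≤ (4 * Real.log ((s + 1 : ℕ) : ℝ)) ^ 2 := by gcongr
        _ = _ := by ring
    have h9 := mul_le_mul_of_nonneg_left h8 h7
    linarith
  have h9 := hfh X hX0 (p - p') (by omega) (by omega)
  have hf := fh_ge_one (p - p')
  calc (T.card : ℝ) ≤ (((Ioc (a + (s + 1)) (a + 3 * (s + 1))).filter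
        (fun q => q.Prime ∧ (q + (p - p')).Prime)).card : ℝ) := by exact_mod_cast ha
    _ ≤ C * (((s + 1 : ℕ) : ℝ) / Real.log ((s + 1 : ℕ) : ℝ) ^ 2) * fh (p - p') := h3
    _ ≤ C * (16 / Real.log X ^ 2 * ((s + 1 : ℕ) : ℝ)) * (C' * Real.log (Real.log X)) := by
        gcongr
    _ = _ := by ring

lemma offdiag_bound : ∃ C X₀ : ℝ, 0 < C ∧ ∀ X K : ℕ, X₀ ≤ X → (400 * (6 ^ 12) ^ 2 : ℕ) ≤ X →
    Real.exp 12 ≤ X → ∀ f : Fin K → ℕ → ℕ, Fam X K f → ∀ i j, i ≠ j →
    (((Ioc (X / 400) X).filter (fun n => (2 * n - f i (Nat.sqrt (2 * n))).Prime ∧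
      (2 * n - f j (Nat.sqrt (2 * n))).Prime)).card : ℝ)
      ≤ C * (X * Real.log (Real.log X) / Real.log X ^ 2) := by
  obtain ⟨C, X₀, hC, hw⟩ := pair_window
  refine ⟨4 * C, X₀, by positivity, fun X K hX0 hX hX2 f hf i j hij => ?_⟩
  have hXpos : (0 : ℝ) < X := lt_of_lt_of_le (Real.exp_pos _) hX2
  have hL12 : (12 : ℝ) ≤ Real.log X := by
    rw [Real.le_log_iff_exp_le hXpos]
    exact hX2
  have hL : 0 < Real.log X := by linarith
  have hLL : 0 ≤ Real.log (Real.log X) := Real.log_nonneg (by linarith)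
  have hX6 : 10 ^ 6 ≤ X := le_trans (by norm_num) hX
  have h1 := card_le_windows hX6
    (fun n => (2 * n - f i (Nat.sqrt (2 * n))).Prime ∧ (2 * n - f j (Nat.sqrt (2 * n))).Prime)
    (C * (Real.log (Real.log X) / Real.log X ^ 2)) (by positivity) ?_
  · refine h1.trans (le_of_eq ?_)
    ring
  intro s hs1 hs2
  have hT : ∀ n ∈ (Ioc (X / 400) X).filter (fun n => ((2 * n - f i (Nat.sqrt (2 * n))).Prime ∧
      (2 * n - f j (Nat.sqrt (2 * n))).Prime) ∧ Nat.sqrt (2 * n) = s),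
      s ^ 2 ≤ 2 * n ∧ 2 * n < (s + 1) ^ 2 := by
    intro n hn
    simp only [mem_filter, mem_Ioc] at hn
    have h2 := sqrt_range hX6 hn.1.1 hn.1.2
    rw [hn.2.2] at h2
    exact ⟨h2.2.2.1, h2.2.2.2.1⟩
  have hne : f i s ≠ f j s := fun h => hij (hf.inj s hs1 hs2 h)
  rcases lt_or_gt_of_ne hne with h | h
  · refine hw X hX0 hX hX2 s (f j s) (f i s) hs1 hs2 (hf.le j s hs1 hs2) h _ hT ?_
    intro n hn
    simp only [mem_filter, mem_Ioc] at hn
    have h2 := hn.2.1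
    rw [hn.2.2] at h2
    exact ⟨h2.2, h2.1⟩
  · refine hw X hX0 hX hX2 s (f i s) (f j s) hs1 hs2 (hf.le i s hs1 hs2) h _ hT ?_
    intro n hn
    simp only [mem_filter, mem_Ioc] at hn
    have h2 := hn.2.1
    rw [hn.2.2] at h2
    exact ⟨h2.1, h2.2⟩

lemma second_moment : ∃ C X₀ : ℝ, 0 < C ∧ ∀ X K : ℕ, X₀ ≤ X →
    ∀ f : Fin K → ℕ → ℕ, Fam X K f →
    ∑ n ∈ Ioc (X / 400) X, rr f n ^ 2 ≤
      C * (K * (X / Real.log X) + K ^ 2 * (X * Real.log (Real.log X) / Real.log X ^ 2)) := by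
  obtain ⟨C₁, hC₁, hd⟩ := diag_bound
  obtain ⟨C₂, X₀, hC₂, ho⟩ := offdiag_bound
  refine ⟨C₁ + C₂, max X₀ (max ((400 * (6 ^ 12) ^ 2 : ℕ) : ℝ) (Real.exp 12)), by positivity,
    fun X K hX f hf => ?_⟩
  have hX0 : X₀ ≤ X := (le_max_left _ _).trans hX
  have hX1 : (400 * (6 ^ 12) ^ 2 : ℕ) ≤ X := by
    have := (le_max_left _ _).trans ((le_max_right _ _).trans hX)
    exact_mod_cast this
  have hX2 : Real.exp 12 ≤ X := (le_max_right _ _).trans ((le_max_right _ _).trans hX)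
  have hXpos : (0 : ℝ) < X := lt_of_lt_of_le (Real.exp_pos _) hX2
  have hL12 : (12 : ℝ) ≤ Real.log X := by
    rw [Real.le_log_iff_exp_le hXpos]
    exact hX2
  have hL : 0 < Real.log X := by linarith
  have hLL : 0 ≤ Real.log (Real.log X) := Real.log_nonneg (by linarith)
  have e1 : ∑ n ∈ Ioc (X / 400) X, rr f n ^ 2 = ∑ i, ∑ j,
      (((Ioc (X / 400) X).filter (fun n => (2 * n - f i (Nat.sqrt (2 * n))).Prime ∧
      (2 * n - f j (Nat.sqrt (2 * n))).Prime)).card : ℝ) := by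
    unfold rr
    simp only [pow_two, sum_mul_sum]
    rw [sum_comm]
    refine sum_congr rfl fun i _ => ?_
    rw [sum_comm]
    refine sum_congr rfl fun j _ => ?_
    rw [card_filter]
    push_cast
    refine sum_congr rfl fun n _ => ?_
    split_ifs <;> simp_all
  rw [e1]
  have hA : 0 ≤ (X : ℝ) / Real.log X := by positivity
  have hB : 0 ≤ X * Real.log (Real.log X) / Real.log X ^ 2 := by positivity
  calc ∑ i, ∑ j, (((Ioc (X / 400) X).filter (fun n => (2 * n - f i (Nat.sqrt (2 * n))).Prime ∧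
      (2 * n - f j (Nat.sqrt (2 * n))).Prime)).card : ℝ)
      ≤ ∑ i : Fin K, ∑ j : Fin K, ((if i = j then C₁ * (X / Real.log X) else 0) +
          C₂ * (X * Real.log (Real.log X) / Real.log X ^ 2)) := by
        refine sum_le_sum fun i _ => sum_le_sum fun j _ => ?_
        by_cases hij : i = j
        · subst hij
          rw [if_pos rfl]
          have h1 := hd X K hX1 hX2 f hf i
          have h2 : 0 ≤ C₂ * (X * Real.log (Real.log X) / Real.log X ^ 2) := by positivity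
          simp only [and_self]
          linarith
        · rw [if_neg hij, zero_add]
          exact ho X K hX0 hX1 hX2 f hf i j hij
    _ = K * (C₁ * (X / Real.log X)) +
          K ^ 2 * (C₂ * (X * Real.log (Real.log X) / Real.log X ^ 2)) := by
        simp only [sum_add_distrib, sum_ite_eq, mem_univ, if_true, sum_const, card_univ,
          Fintype.card_fin, nsmul_eq_mul]
        ring
    _ ≤ _ := by
        have h3 : 0 ≤ (K : ℝ) := Nat.cast_nonneg _
        have h4 : 0 ≤ C₂ * (K * (X / Real.log X)) := by positivity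
        have h5 : 0 ≤ C₁ * (K ^ 2 * (X * Real.log (Real.log X) / Real.log X ^ 2)) := by positivity
        nlinarith

end Pool.Agent.MPS11
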