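import Mathlib
import Pool.Agent.MPS11.Second

/-!
# The lower bound
-/

set_option autoImplicit false

namespace Pool.Agent.MPS11

open Finset Pool.Agent.E456 Pool.Agent.GW6

theorem lower : ∃ c X₀ : ℝ, 0 < c ∧ ∀ X K : ℕ, X₀ ≤ X → 1 ≤ K →
    ∀ f : Fin K → ℕ → ℕ, Fam X K f →
    c * X * min (K / Real.log X) (1 / Real.log (Real.log X)) ≤
      (((Icc 1 X).filter (fun n => ∃ j, Nat.sqrt (2 * n) < f j (Nat.sqrt (2 * n)) ∧
        f j (Nat.sqrt (2 * n)) < n ∧ (2 * n - f j (Nat.sqrt (2 * n))).Prime)).card : ℝ) := by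
  classical
  obtain ⟨C, X₀, hC, hsec⟩ := second_moment
  refine ⟨1 / (800 * C), max X₀ (max ((10 ^ 6 : ℕ) : ℝ) (Real.exp 12)), by positivity,
    fun X K hX hK f hf => ?_⟩
  have hX0 : X₀ ≤ X := (le_max_left _ _).trans hX
  have hX1 : 10 ^ 6 ≤ X := by
    have := (le_max_left _ _).trans ((le_max_right _ _).trans hX)
    exact_mod_cast this
  have hX2 : Real.exp 12 ≤ X := (le_max_right _ _).trans ((le_max_right _ _).trans hX)
  have hXpos : (0 : ℝ) < X := lt_of_lt_of_le (Real.exp_pos _) hX2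
  have hL12 : (12 : ℝ) ≤ Real.log X := by
    rw [Real.le_log_iff_exp_le hXpos]
    exact hX2
  have hL : 0 < Real.log X := by linarith
  have hLL : 0 < Real.log (Real.log X) := Real.log_pos (by linarith)
  have hK0 : (0 : ℝ) < K := by exact_mod_cast hK
  have h1 := first_moment X K hX1 f hf
  have h2 := hsec X K hX0 f hf
  set G := (Ioc (X / 400) X).filter (fun n => rr f n ≠ 0) with hG
  have h3 : ∑ n ∈ Ioc (X / 400) X, rr f n = ∑ n ∈ G, rr f n := by
    rw [hG, sum_filter_ne_zero]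
  have h4 : (∑ n ∈ G, rr f n) ^ 2 ≤ G.card * ∑ n ∈ G, rr f n ^ 2 := sq_sum_le_card_mul_sum_sq
  have h5 : ∑ n ∈ G, rr f n ^ 2 ≤ ∑ n ∈ Ioc (X / 400) X, rr f n ^ 2 :=
    sum_le_sum_of_subset_of_nonneg (filter_subset _ _) fun _ _ _ => sq_nonneg _
  have h6 : G ⊆ (Icc 1 X).filter (fun n => ∃ j, Nat.sqrt (2 * n) < f j (Nat.sqrt (2 * n)) ∧
      f j (Nat.sqrt (2 * n)) < n ∧ (2 * n - f j (Nat.sqrt (2 * n))).Prime) := by
    intro n hn
    rw [hG, mem_filter, mem_Ioc] at hn
    rw [mem_filter, mem_Icc]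
    obtain ⟨⟨hn1, hn2⟩, hn3⟩ := hn
    refine ⟨⟨by omega, hn2⟩, ?_⟩
    have : ∃ j, (2 * n - f j (Nat.sqrt (2 * n))).Prime := by
      by_contra hcon
      push Not at hcon
      apply hn3
      unfold rr
      exact sum_eq_zero fun j _ => if_neg (hcon j)
    obtain ⟨j, hj⟩ := this
    have h7 := hf.g_facts hX1 j hn1 hn2
    exact ⟨j, h7.1, by omega, hj⟩
  have h7 : (G.card : ℝ) ≤ (((Icc 1 X).filter (fun n => ∃ j,
      Nat.sqrt (2 * n) < f j (Nat.sqrt (2 * n)) ∧
      f j (Nat.sqrt (2 * n)) < n ∧ (2 * n - f j (Nat.sqrt (2 * n))).Prime)).card : ℝ) := by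
    exact_mod_cast card_le_card h6
  refine le_trans ?_ h7
  -- the inequality
  set m := min (K / Real.log X) (1 / Real.log (Real.log X)) with hm
  have hm0 : 0 < m := lt_min (by positivity) (by positivity)
  have hm1 : m ≤ K / Real.log X := min_le_left _ _
  have hm2 : m ≤ 1 / Real.log (Real.log X) := min_le_right _ _
  have hS : (K * (1 / 20 * (X / Real.log X))) ^ 2 ≤ G.card *
      (C * (K * (X / Real.log X) +
        K ^ 2 * (X * Real.log (Real.log X) / Real.log X ^ 2))) := by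
    calc (K * (1 / 20 * (X / Real.log X))) ^ 2 ≤ (∑ n ∈ G, rr f n) ^ 2 := by
          rw [← h3]
          gcongr
      _ ≤ G.card * ∑ n ∈ G, rr f n ^ 2 := h4
      _ ≤ _ := by
          refine mul_le_mul_of_nonneg_left (h5.trans h2) (Nat.cast_nonneg _)
  -- divide
  have h8 : K * (X / Real.log X) + K ^ 2 * (X * Real.log (Real.log X) / Real.log X ^ 2) ≤
      2 * (K ^ 2 * (X / Real.log X ^ 2)) / m := by
    have h9 : K * (X / Real.log X) ≤ K ^ 2 * (X / Real.log X ^ 2) / m := by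
      rw [le_div_iff₀ hm0]
      calc K * (X / Real.log X) * m ≤ K * (X / Real.log X) * (K / Real.log X) := by gcongr
        _ = _ := by ring
    have h10 : K ^ 2 * (X * Real.log (Real.log X) / Real.log X ^ 2) ≤
        K ^ 2 * (X / Real.log X ^ 2) / m := by
      rw [le_div_iff₀ hm0]
      calc K ^ 2 * (X * Real.log (Real.log X) / Real.log X ^ 2) * m
          ≤ K ^ 2 * (X * Real.log (Real.log X) / Real.log X ^ 2) *
            (1 / Real.log (Real.log X)) := by gcongr
        _ = _ := by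
          field_simp
    calc _ ≤ K ^ 2 * (X / Real.log X ^ 2) / m + K ^ 2 * (X / Real.log X ^ 2) / m :=
          add_le_add h9 h10
      _ = _ := by ring
  have h11 : (K * (1 / 20 * (X / Real.log X))) ^ 2 ≤
      G.card * (C * (2 * (K ^ 2 * (X / Real.log X ^ 2)) / m)) := by
    refine hS.trans ?_
    gcongr
  have h12 : (K * (1 / 20 * (X / Real.log X))) ^ 2 =
      (K ^ 2 * (X / Real.log X ^ 2)) * (X / 400) := by
    field_simp
    ring
  rw [h12] at h11
  have hpos : 0 < (K : ℝ) ^ 2 * (X / Real.log X ^ 2) := by positivity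
  have h13 : (X : ℝ) / 400 ≤ G.card * (C * 2 / m) := by
    refine le_of_mul_le_mul_left ?_ hpos
    refine h11.trans (le_of_eq ?_)
    ring
  have h14 : G.card * (C * 2 / m) * m = G.card * (C * 2) := by
    field_simp
  have h15 : (X : ℝ) / 400 * m ≤ G.card * (C * 2) := by
    rw [← h14]
    exact mul_le_mul_of_nonneg_right h13 hm0.le
  rw [div_mul_eq_mul_div, div_mul_eq_mul_div, div_le_iff₀ (by positivity)]
  nlinarith

end Pool.Agent.MPS11
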