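import Mathlib
import Pool.Agent.MPS11.Fh
import Pool.Agent.GW6.Cheb

/-!
# Sets of primes in one residue class modulo a primorial
-/

set_option autoImplicit false

namespace Pool.Agent.MPS11

open Finset Pool.Agent.E456 Pool.Agent.GW6

/-- odd primes up to `z` -/
def OP (z : ℕ) : Finset ℕ := (Icc 3 z).filter Nat.Prime

/-- their product -/
def WW (z : ℕ) : ℕ := ∏ l ∈ OP z, l

lemma mem_OP {z l : ℕ} : l ∈ OP z ↔ 3 ≤ l ∧ l ≤ z ∧ l.Prime := by
  simp only [OP, mem_filter, mem_Icc]
  tauto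

lemma WW_pos (z : ℕ) : 0 < WW z := prod_pos fun l hl => by
  have := (mem_OP.1 hl).1
  omega

lemma WW_odd (z : ℕ) : WW z % 2 = 1 := by
  have h : Odd (WW z) := by
    unfold WW
    refine Finset.prod_induction _ Odd (fun a b ha hb => ha.mul hb) odd_one ?_
    intro l hl
    obtain ⟨h1, _, h2⟩ := mem_OP.1 hl
    rcases h2.eq_two_or_odd' with h3 | h3
    · omega
    · exact h3
  exact Nat.odd_iff.1 h

lemma WW_le (z : ℕ) : WW z ≤ 4 ^ z := by
  refine le_trans ?_ (primorial_le_four_pow z)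
  unfold WW primorial
  refine prod_le_prod_of_subset_of_one_le' ?_ ?_
  · intro l hl
    obtain ⟨h1, h2, h3⟩ := mem_OP.1 hl
    simp only [mem_filter, mem_range]
    exact ⟨by omega, h3⟩
  · intro l hl _
    simp only [mem_filter, mem_range] at hl
    exact hl.2.one_le

lemma WW_coprime (z q : ℕ) (hq : q.Prime) (hz : z < q) : Nat.Coprime (WW z) q := by
  rw [Nat.coprime_comm, hq.coprime_iff_not_dvd]
  intro hd
  unfold WW at hd
  obtain ⟨l, hl, hdl⟩ := (hq.prime.dvd_finsetProd_iff _).1 hd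
  obtain ⟨h1, h2, h3⟩ := mem_OP.1 hl
  have := Nat.le_of_dvd (by omega) hdl
  omega

lemma totient_WW : ∃ C : ℝ, 0 < C ∧ ∀ z : ℕ, 2 ≤ z →
    ((WW z).totient : ℝ) ≤ WW z * (C / Real.log z) := by
  obtain ⟨C, hC, hm⟩ := mertens2
  refine ⟨Real.exp (C + 1), Real.exp_pos _, fun z hz => ?_⟩
  have hz' : (2 : ℝ) ≤ z := by exact_mod_cast hz
  have hlz : 0 < Real.log z := Real.log_pos (by linarith)
  have h1 : ((WW z).totient : ℝ) = WW z * ∏ l ∈ OP z, (1 - (l : ℝ)⁻¹) := by
    have h2 := Nat.totient_eq_mul_prod_factors (WW z)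
    have h3 : (WW z).primeFactors = OP z := Nat.primeFactors_prod fun l hl => (mem_OP.1 hl).2.2
    rw [h3] at h2
    have h4 : (((WW z).totient : ℚ) : ℝ) = ((WW z * ∏ l ∈ OP z, (1 - (l : ℚ)⁻¹) : ℚ) : ℝ) := by
      rw [h2]
    push_cast at h4
    exact h4
  rw [h1]
  refine mul_le_mul_of_nonneg_left ?_ (Nat.cast_nonneg _)
  have h2 : ∏ l ∈ OP z, (1 - (l : ℝ)⁻¹) ≤ Real.exp (-∑ l ∈ OP z, (1 : ℝ) / l) := by
    rw [← sum_neg_distrib, Real.exp_sum]
    refine prod_le_prod ?_ ?_
    · intro l hl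
      have h3 : (3 : ℝ) ≤ l := by exact_mod_cast (mem_OP.1 hl).1
      have : (l : ℝ)⁻¹ ≤ 1 := inv_le_one_of_one_le₀ (by linarith)
      linarith
    · intro l hl
      have := Real.add_one_le_exp (-(1 / (l : ℝ)))
      rw [one_div] at this ⊢
      linarith
  refine h2.trans ?_
  have h3 : ∑ l ∈ OP z, (1 : ℝ) / l ≥ Real.log (Real.log z) - C - 1 := by
    have h4 := (abs_le.mp (hm z hz)).1
    have h5 : S1 z ≤ 1 / 2 + ∑ l ∈ OP z, (1 : ℝ) / l := by
      unfold S1
      have h6 : (Ioc 0 z).filter Nat.Prime ⊆ {2} ∪ OP z := by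
        intro l hl
        simp only [mem_filter, mem_Ioc, mem_union, mem_singleton, mem_OP] at hl ⊢
        have := hl.2.two_le
        rcases this.eq_or_lt with h7 | h7
        · left; exact h7.symm
        · right; exact ⟨by omega, hl.1.2, hl.2⟩
      calc ∑ p ∈ (Ioc 0 z).filter Nat.Prime, (1 : ℝ) / p
          ≤ ∑ p ∈ {2} ∪ OP z, (1 : ℝ) / p :=
            sum_le_sum_of_subset_of_nonneg h6 fun _ _ _ => by positivity
        _ ≤ ∑ p ∈ ({2} : Finset ℕ), (1 : ℝ) / p + ∑ p ∈ OP z, (1 : ℝ) / p := by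
            have := sum_union_inter (s₁ := ({2} : Finset ℕ)) (s₂ := OP z)
              (f := fun p => (1 : ℝ) / p)
            have h8 : 0 ≤ ∑ p ∈ ({2} : Finset ℕ) ∩ OP z, (1 : ℝ) / p :=
              sum_nonneg fun _ _ => by positivity
            linarith
        _ = _ := by simp
    linarith
  calc Real.exp (-∑ l ∈ OP z, (1 : ℝ) / l) ≤ Real.exp ((C + 1) - Real.log (Real.log z)) := by
        apply Real.exp_le_exp.mpr
        linarith
    _ = Real.exp (C + 1) / Real.log z := by
        rw [Real.exp_sub, Real.exp_log hlz]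

/-- the count for a set of primes in one class mod `WW z` -/
lemma class_count (X z K : ℕ) (P : Finset ℕ) (hP : P.card = K) (a : ℕ)
    (ha : ∀ p ∈ P, p % WW z = a) :
    ((Icc 1 X).filter (fun n => ∃ p ∈ P, p < n ∧ (2 * n - p).Prime)).card ≤
      K * z + (WW z).totient * (X / WW z + 1) := by
  classical
  set b := (WW z - 1) / 2 * a with hb
  have hW := WW_pos z
  have hWo := WW_odd z
  have h1 : (Icc 1 X).filter (fun n => ∃ p ∈ P, p < n ∧ (2 * n - p).Prime) ⊆
      (P ×ˢ Icc 1 z).image (fun x => (x.1 + x.2) / 2) ∪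
        (Icc 1 X).filter (fun n => Nat.Coprime (WW z) (n + b)) := by
    intro n hn
    simp only [mem_filter, mem_Icc] at hn
    obtain ⟨hn1, p, hp, hpn, hq⟩ := hn
    rw [mem_union]
    by_cases hz : 2 * n - p ≤ z
    · left
      rw [mem_image]
      refine ⟨(p, 2 * n - p), ?_, ?_⟩
      · rw [mem_product, mem_Icc]
        exact ⟨hp, hq.one_le, hz⟩
      · simp only
        omega
    · right
      rw [mem_filter, mem_Icc]
      refine ⟨hn1, ?_⟩
      have h2 : Nat.Coprime (WW z) (2 * n - p) := WW_coprime z _ hq (by omega)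
      have h3 := Nat.mod_add_div p (WW z)
      rw [ha p hp] at h3
      have h4 : 2 * (n + b) = (2 * n - p) + WW z * (p / WW z + a) := by
        have h5 : 2 * ((WW z - 1) / 2) = WW z - 1 := by omega
        have h6 : 2 * b + a = WW z * a := by
          rw [hb]
          calc 2 * ((WW z - 1) / 2 * a) + a = (2 * ((WW z - 1) / 2)) * a + a := by ring
            _ = (WW z - 1 + 1) * a := by rw [h5]; ring
            _ = WW z * a := by rw [Nat.sub_add_cancel hW]
        rw [mul_add, mul_add, ← h6]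
        omega
      have h5 : Nat.Coprime (WW z) (2 * (n + b)) := by
        rw [h4]
        exact (Nat.coprime_add_mul_left_right _ _ _).2 h2
      exact Nat.Coprime.coprime_mul_left_right h5
  refine (card_le_card h1).trans ((card_union_le _ _).trans ?_)
  refine Nat.add_le_add ?_ ?_
  · refine card_image_le.trans ?_
    rw [card_product, Nat.card_Icc, hP]
    simp
  · refine le_trans ?_ (Nat.Ico_filter_coprime_le (1 + b) X hW.ne')
    refine card_le_card_of_injOn (fun n => n + b) ?_ ?_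
    · intro n hn
      simp only [coe_filter, mem_Icc, Set.mem_ofPred_eq] at hn
      simp only [coe_filter, mem_Ico, Set.mem_ofPred_eq]
      exact ⟨by omega, hn.2⟩
    · intro n _ m _ h
      simp only at h
      omega

/-- union bound -/
lemma union_count (X K : ℕ) (hX : 2 ≤ X) (P : Finset ℕ) (hP : P.card = K) :
    (((Icc 1 X).filter (fun n => ∃ p ∈ P, p < n ∧ (2 * n - p).Prime)).card : ℝ) ≤
      8 * X * (K / Real.log X) := by
  classical
  have hX' : (2 : ℝ) ≤ X := by exact_mod_cast hX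
  have hL : 0 < Real.log X := Real.log_pos (by linarith)
  have h1 : (Icc 1 X).filter (fun n => ∃ p ∈ P, p < n ∧ (2 * n - p).Prime) ⊆
      P.biUnion (fun p => (Icc 1 X).filter (fun n => p < n ∧ (2 * n - p).Prime)) := by
    intro n hn
    simp only [mem_filter, mem_Icc, mem_biUnion] at hn ⊢
    obtain ⟨hn1, p, hp, h⟩ := hn
    exact ⟨p, hp, hn1, h⟩
  have h2 : ∀ p, ((Icc 1 X).filter (fun n => p < n ∧ (2 * n - p).Prime)).card ≤
      ((Icc 1 (2 * X)).filter Nat.Prime).card := by
    intro p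
    refine card_le_card_of_injOn (fun n => 2 * n - p) ?_ ?_
    · intro n hn
      simp only [coe_filter, mem_Icc, Set.mem_ofPred_eq] at hn ⊢
      exact ⟨⟨by omega, by omega⟩, hn.2.2⟩
    · intro n hn m hm h
      simp only [coe_filter, mem_Icc, Set.mem_ofPred_eq] at hn hm
      simp only at h
      omega
  have h3 := cheb_upper (2 * X) (by omega)
  have h4 : (((Icc 1 X).filter (fun n => ∃ p ∈ P, p < n ∧ (2 * n - p).Prime)).card : ℝ) ≤
      K * (((Icc 1 (2 * X)).filter Nat.Prime).card : ℝ) := by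
    have h5 := (card_le_card h1).trans (card_biUnion_le.trans (sum_le_sum fun p _ => h2 p))
    rw [sum_const, hP, smul_eq_mul] at h5
    exact_mod_cast h5
  have h5 : (((2 * X : ℕ) : ℝ)) / Real.log ((2 * X : ℕ) : ℝ) ≤ 2 * X / Real.log X := by
    push_cast
    apply div_le_div_of_nonneg_left (by positivity) hL
    apply Real.log_le_log (by linarith)
    linarith
  calc (((Icc 1 X).filter (fun n => ∃ p ∈ P, p < n ∧ (2 * n - p).Prime)).card : ℝ)
      ≤ K * (((Icc 1 (2 * X)).filter Nat.Prime).card : ℝ) := h4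
    _ ≤ K * (4 * (2 * X / Real.log X)) := by
        refine mul_le_mul_of_nonneg_left (h3.trans ?_) (Nat.cast_nonneg _)
        gcongr
    _ = _ := by ring

end Pool.Agent.MPS11
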