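import Mathlib
import Pool.Agent.MPS11.Upper

/-!
# The sets of primes with few even numbers
-/

set_option autoImplicit false

namespace Pool.Agent.MPS11

open Finset Pool.Agent.E456 Pool.Agent.GW6

lemma exp_big {y : ℝ} (hy : 200 ≤ y) : 300000 * y ≤ Real.exp y := by
  have h := Real.pow_div_factorial_le_exp y (by linarith) 4
  have h4 : (Nat.factorial 4 : ℝ) = 24 := by norm_num [Nat.factorial]
  rw [h4] at h
  refine le_trans ?_ h
  rw [le_div_iff₀ (by norm_num)]
  have h1 : (8000000 : ℝ) ≤ y ^ 3 := by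
    calc (8000000 : ℝ) = 200 ^ 3 := by norm_num
      _ ≤ y ^ 3 := by gcongr
  nlinarith

/-- `L` is large in terms of `ε` -/
lemma L_facts {ε L : ℝ} (h0 : 0 < ε) (h1 : ε ≤ 1) (hL : 4000 / ε ^ 2 ≤ L) :
    4000 ≤ ε ^ 2 * L ∧ 4000 ≤ ε * L ∧ 4000 ≤ L ∧ 20010 * L ≤ Real.exp (ε * L / 10) ∧
      L ^ 2 ≤ Real.exp (ε * L) := by
  have h2 : 4000 ≤ ε ^ 2 * L := by
    rw [div_le_iff₀ (by positivity)] at hL
    linarith
  have hL0 : 0 < L := by
    by_contra h
    push Not at h
    nlinarith [sq_nonneg ε]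
  have h3 : ε ^ 2 * L ≤ ε * L := by
    have : ε ^ 2 ≤ ε := by nlinarith
    exact mul_le_mul_of_nonneg_right this hL0.le
  have h4 : ε * L ≤ L := by nlinarith
  have h5 := exp_big (y := ε * L / 20) (by linarith)
  have h6 : Real.exp (ε * L / 10) = Real.exp (ε * L / 20) ^ 2 := by
    rw [← Real.exp_nat_mul]
    congr 1
    push_cast
    ring
  have h7 : 20010 * L ≤ Real.exp (ε * L / 10) := by
    rw [h6]
    have h8 : (300000 * (ε * L / 20)) ^ 2 ≤ Real.exp (ε * L / 20) ^ 2 := by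
      apply pow_le_pow_left₀ (by positivity) h5
    have h9 : (300000 * (ε * L / 20)) ^ 2 = 225000000 * (ε ^ 2 * L) * L := by ring
    rw [h9] at h8
    have h10 : 225000000 * 4000 * L ≤ 225000000 * (ε ^ 2 * L) * L := by gcongr
    linarith
  refine ⟨h2, by linarith, by linarith, h7, ?_⟩
  have h8 : Real.exp (ε * L / 10) ^ 2 ≤ Real.exp (ε * L) := by
    rw [← Real.exp_nat_mul]
    apply Real.exp_le_exp.2
    push_cast
    nlinarith
  have h9 : L ^ 2 ≤ Real.exp (ε * L / 10) ^ 2 := by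
    apply pow_le_pow_left₀ hL0.le
    linarith
  linarith

lemma log4_le : Real.log 4 ≤ 1.4 := by
  have : Real.log 4 = 2 * Real.log 2 := by
    rw [show (4 : ℝ) = 2 ^ 2 by norm_num, Real.log_pow]; norm_num
  rw [this]
  linarith [Real.log_two_lt_d9]

lemma WW_exp {z : ℕ} {y : ℝ} (hz : (z : ℝ) ≤ y) : (WW z : ℝ) ≤ Real.exp (1.4 * y) := by
  have h5 : (WW z : ℝ) ≤ 4 ^ z := by exact_mod_cast WW_le z
  refine h5.trans ?_
  rw [← Real.exp_log (show (0 : ℝ) < 4 by norm_num), ← Real.exp_nat_mul]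
  apply Real.exp_le_exp.2
  have h6 := log4_le
  have h7 : 0 < Real.log 4 := Real.log_pos (by norm_num)
  have h8 : (0 : ℝ) ≤ z := Nat.cast_nonneg _
  nlinarith

lemma K_exp {X K : ℕ} {ε L : ℝ} (hX : (X : ℝ) = Real.exp L) (hK : (K : ℝ) ≤ (X : ℝ) ^ (1 - ε)) :
    (K : ℝ) ≤ Real.exp ((1 - ε) * L) := by
  rw [hX, ← Real.exp_mul] at hK
  rwa [mul_comm]

lemma exists_class (X K : ℕ) (ε : ℝ) (h0 : 0 < ε) (h1 : ε ≤ 1)
    (hX : Real.exp (4000 / ε ^ 2) ≤ X) (hK : (K : ℝ) ≤ (X : ℝ) ^ (1 - ε)) :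
    ∃ (P : Finset ℕ) (a : ℕ), P.card = K ∧ (∀ p ∈ P, p.Prime ∧ 2 * X < p ^ 2 ∧ 2000 * p ≤ X) ∧
      ∀ p ∈ P, p % WW ⌊ε * Real.log X / 4⌋₊ = a := by
  classical
  have hXpos : (0 : ℝ) < X := lt_of_lt_of_le (Real.exp_pos _) hX
  obtain ⟨L, hLdef⟩ : ∃ L, L = Real.log X := ⟨_, rfl⟩
  have hL : 4000 / ε ^ 2 ≤ L := by
    rw [hLdef, Real.le_log_iff_exp_le hXpos]
    exact hX
  obtain ⟨hf1, hf2, hf3, hf4, hf5⟩ := L_facts h0 h1 hL
  have hXL : (X : ℝ) = Real.exp L := by rw [hLdef, Real.exp_log hXpos]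
  rw [← hLdef]
  obtain ⟨z, hz⟩ : ∃ z, z = ⌊ε * L / 4⌋₊ := ⟨_, rfl⟩
  rw [← hz]
  have hz1 : (z : ℝ) ≤ ε * L / 4 := by rw [hz]; exact Nat.floor_le (by linarith)
  set Q := (Icc 1 (X / 2000)).filter (fun p => p.Prime ∧ 2 * X < p ^ 2) with hQ
  -- lower bound for `Q`
  have hXbig : (10 ^ 7 : ℝ) ≤ X := by
    rw [hXL]
    have h3 : Real.exp (ε * L / 10) ≤ Real.exp L := Real.exp_le_exp.2 (by nlinarith)
    nlinarith
  obtain ⟨N, hN⟩ : ∃ N, N = X / 2000 := ⟨_, rfl⟩
  have hN1 : (X : ℝ) / 2001 ≤ N := by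
    have h1 : (X : ℝ) < 2000 * (N + 1) := by
      have : X < 2000 * (N + 1) := by omega
      exact_mod_cast this
    linarith
  have hN2 : (N : ℝ) ≤ X := by
    have : N ≤ X := by omega
    exact_mod_cast this
  have hN3 : 2 ≤ N := by
    have : (2 : ℝ) ≤ N := by linarith
    exact_mod_cast this
  have hcheb := cheb_ge N hN3
  have hlN : 0 < Real.log N := Real.log_pos (by exact_mod_cast (by omega : 1 < N))
  have hlN2 : Real.log N ≤ L := by
    rw [hLdef]
    exact Real.log_le_log (by exact_mod_cast (by omega : 0 < N)) hN2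
  have h1 : Real.exp ((1 - ε / 10) * L) ≤ (((Icc 1 N).filter Nat.Prime).card : ℝ) := by
    refine le_trans ?_ hcheb
    have h2 : (X : ℝ) / 2001 / L ≤ N / Real.log N := by
      apply div_le_div₀ (Nat.cast_nonneg _) hN1 hlN hlN2
    have h3 : Real.exp ((1 - ε / 10) * L) ≤ 1 / 10 * (X / 2001 / L) := by
      have e1 : Real.exp L = Real.exp ((1 - ε / 10) * L) * Real.exp (ε * L / 10) := by
        rw [← Real.exp_add]
        congr 1
        ring
      rw [hXL, e1]
      have h4 : 1 ≤ 1 / 10 * (Real.exp (ε * L / 10) / 2001 / L) := by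
        rw [div_div, mul_div_assoc', le_div_iff₀ (by positivity)]
        linarith
      calc Real.exp ((1 - ε / 10) * L) = Real.exp ((1 - ε / 10) * L) * 1 := (mul_one _).symm
        _ ≤ Real.exp ((1 - ε / 10) * L) * (1 / 10 * (Real.exp (ε * L / 10) / 2001 / L)) := by
            gcongr
        _ = _ := by ring
    linarith
  have h2 : (((Icc 1 N).filter Nat.Prime).card : ℝ) ≤ Q.card + Real.sqrt (2 * X) := by
    have h3 : (Icc 1 N).filter Nat.Prime ⊆ Q ∪ Icc 1 (Nat.sqrt (2 * X)) := by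
      intro p hp
      simp only [mem_filter, mem_Icc] at hp
      rw [mem_union, hQ, mem_filter, mem_Icc, mem_Icc]
      by_cases h4 : 2 * X < p ^ 2
      · left
        exact ⟨⟨hp.1.1, by omega⟩, hp.2, h4⟩
      · right
        exact ⟨hp.1.1, Nat.le_sqrt'.2 (by omega)⟩
    have h4 := (card_le_card h3).trans (card_union_le _ _)
    rw [Nat.card_Icc, Nat.add_sub_cancel] at h4
    have h5 : ((Nat.sqrt (2 * X) : ℕ) : ℝ) ≤ Real.sqrt (2 * X) := by
      have := Real.nat_sqrt_le_real_sqrt (a := 2 * X)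
      push_cast at this
      exact this
    have h6 : (((Icc 1 N).filter Nat.Prime).card : ℝ) ≤ Q.card + (Nat.sqrt (2 * X) : ℕ) := by
      exact_mod_cast h4
    linarith
  have h3 : Real.sqrt (2 * X) ≤ 2 * Real.exp (L / 2) := by
    rw [Real.sqrt_le_left (by positivity), hXL, mul_pow, ← Real.exp_nat_mul]
    have : ((2 : ℕ) : ℝ) * (L / 2) = L := by push_cast; ring
    rw [this]
    have := Real.exp_pos L
    linarith
  have h4 := WW_exp hz1
  have h5 := K_exp hXL hK
  have h6 : WW z * K ≤ Q.card := by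
    have h7 : (WW z : ℝ) * K ≤ Q.card := by
      have h8 : (WW z : ℝ) * K ≤ Real.exp ((1 - ε / 2) * L) := by
        calc (WW z : ℝ) * K ≤ Real.exp (1.4 * (ε * L / 4)) * Real.exp ((1 - ε) * L) := by gcongr
          _ = Real.exp (1.4 * (ε * L / 4) + (1 - ε) * L) := by rw [← Real.exp_add]
          _ ≤ Real.exp ((1 - ε / 2) * L) := by
              apply Real.exp_le_exp.2
              linarith
      have h9 : 3 * Real.exp ((1 - ε / 2) * L) ≤ Real.exp ((1 - ε / 10) * L) := by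
        rw [show (1 - ε / 10) * L = (1 - ε / 2) * L + 4 / 10 * (ε * L) by ring, Real.exp_add]
        have h10 : (3 : ℝ) ≤ Real.exp (4 / 10 * (ε * L)) := by
          have := Real.add_one_le_exp (4 / 10 * (ε * L))
          linarith
        have := Real.exp_pos ((1 - ε / 2) * L)
        nlinarith
      have h10 : Real.exp (L / 2) ≤ Real.exp ((1 - ε / 2) * L) :=
        Real.exp_le_exp.2 (by nlinarith)
      linarith
    exact_mod_cast h7
  obtain ⟨a, ha, hfib⟩ := exists_le_card_fiber_of_mul_le_card_of_maps_to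
    (s := Q) (t := range (WW z)) (f := fun p => p % WW z)
    (fun p _ => mem_range.2 (Nat.mod_lt _ (WW_pos z)))
    ⟨0, mem_range.2 (WW_pos z)⟩ (n := K) (by rwa [card_range])
  obtain ⟨P, hP1, hP2⟩ := exists_subset_card_eq hfib
  refine ⟨P, a, hP2, ?_, ?_⟩
  · intro p hp
    have := hP1 hp
    simp only [hQ, mem_filter, mem_Icc] at this
    exact ⟨this.1.2.1, this.1.2.2, by omega⟩
  · intro p hp
    exact (mem_filter.1 (hP1 hp)).2

theorem upper : ∃ C : ℝ, 0 < C ∧ ∀ ε : ℝ, 0 < ε → ε ≤ 1 → ∃ X₀ : ℝ, ∀ X K : ℕ, X₀ ≤ X →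
    (K : ℝ) ≤ (X : ℝ) ^ (1 - ε) →
    ∃ P : Finset ℕ, P.card = K ∧ (∀ p ∈ P, p.Prime ∧ 2 * X < p ^ 2 ∧ 2000 * p ≤ X) ∧
      (((Icc 1 X).filter (fun n => ∃ p ∈ P, p < n ∧ (2 * n - p).Prime)).card : ℝ) ≤
        C * X * min (K / Real.log X) (1 / Real.log (Real.log X)) := by
  classical
  obtain ⟨C, hC, htot⟩ := totient_WW
  refine ⟨8 + 4 * C, by positivity, fun ε h0 h1 => ⟨Real.exp (4000 / ε ^ 2),
    fun X K hX hK => ?_⟩⟩
  obtain ⟨P, a, hP1, hP2, hP3⟩ := exists_class X K ε h0 h1 hX hK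
  refine ⟨P, hP1, hP2, ?_⟩
  have hXpos : (0 : ℝ) < X := lt_of_lt_of_le (Real.exp_pos _) hX
  obtain ⟨L, hLdef⟩ : ∃ L, L = Real.log X := ⟨_, rfl⟩
  have hL : 4000 / ε ^ 2 ≤ L := by
    rw [hLdef, Real.le_log_iff_exp_le hXpos]
    exact hX
  obtain ⟨hf1, hf2, hf3, hf4, hf5⟩ := L_facts h0 h1 hL
  have hXL : (X : ℝ) = Real.exp L := by rw [hLdef, Real.exp_log hXpos]
  rw [← hLdef] at hP3 ⊢
  have hLL : 0 < Real.log L := Real.log_pos (by linarith)
  have hX2 : 2 ≤ X := by
    have : (2 : ℝ) ≤ X := by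
      rw [hXL]
      have := Real.add_one_le_exp L
      linarith
    exact_mod_cast this
  rw [mul_assoc, mul_min_of_nonneg _ _ hXpos.le, mul_min_of_nonneg _ _ (by positivity)]
  refine le_min ?_ ?_
  · have h1 := union_count X K hX2 P hP1
    rw [← hLdef] at h1
    refine h1.trans ?_
    have h2 : 0 ≤ (X : ℝ) * (K / L) := by positivity
    nlinarith
  · obtain ⟨z, hz⟩ : ∃ z, z = ⌊ε * L / 4⌋₊ := ⟨_, rfl⟩
    rw [← hz] at hP3
    have hz1 : (z : ℝ) ≤ ε * L / 4 := by rw [hz]; exact Nat.floor_le (by linarith)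
    have hz2 : ε * L / 4 < z + 1 := by rw [hz]; exact Nat.lt_floor_add_one _
    have h1' := class_count X z K P hP1 a hP3
    have hz3 : 2 ≤ z := by
      have : (2 : ℝ) ≤ z := by linarith
      exact_mod_cast this
    have h2 := htot z hz3
    have hW := WW_pos z
    have hW' : (0 : ℝ) < WW z := by exact_mod_cast hW
    have hWX : (WW z : ℝ) ≤ X := by
      refine (WW_exp hz1).trans ?_
      rw [hXL]
      apply Real.exp_le_exp.2
      nlinarith
    have hlz : Real.log L / 2 ≤ Real.log z := by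
      have h3 : Real.sqrt L ≤ z := by
        have h4 : Real.sqrt L ≤ ε * L / 4 - 1 := by
          rw [Real.sqrt_le_left (by linarith)]
          have h5 : 2 * L ≤ (ε * L / 4) ^ 2 / 2 := by
            have : (ε * L / 4) ^ 2 / 2 = ε ^ 2 * L * L / 32 := by ring
            rw [this]
            nlinarith
          nlinarith
        linarith
      have h5 : Real.log (Real.sqrt L) ≤ Real.log z :=
        Real.log_le_log (Real.sqrt_pos.2 (by linarith)) h3
      rwa [Real.log_sqrt (by linarith)] at h5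
    have hlz0 : 0 < Real.log z := by linarith
    have h3 : ((X / WW z + 1 : ℕ) : ℝ) ≤ 2 * X / WW z := by
      push_cast
      have h4 : ((X / WW z : ℕ) : ℝ) ≤ X / WW z := Nat.cast_div_le
      have h5 : (1 : ℝ) ≤ X / WW z := by rw [le_div_iff₀ hW', one_mul]; exact hWX
      calc ((X / WW z : ℕ) : ℝ) + 1 ≤ X / WW z + X / WW z := by linarith
        _ = _ := by ring
    have h4 : ((WW z).totient : ℝ) * ((X / WW z + 1 : ℕ) : ℝ) ≤ 4 * C * (X * (1 / Real.log L)) := by
      calc ((WW z).totient : ℝ) * ((X / WW z + 1 : ℕ) : ℝ)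
          ≤ (WW z * (C / Real.log z)) * (2 * X / WW z) := by
            apply mul_le_mul h2 h3 (Nat.cast_nonneg _) (by positivity)
        _ = 2 * C * X / Real.log z := by field_simp
        _ ≤ 2 * C * X / (Real.log L / 2) := by
            apply div_le_div_of_nonneg_left (by positivity) (by positivity) hlz
        _ = 4 * C * (X * (1 / Real.log L)) := by
            field_simp
            ring
    have h5 : (K : ℝ) * z ≤ X * (1 / Real.log L) := by
      have h6 := K_exp hXL hK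
      have h7 : Real.log L ≤ L := by
        have := Real.log_le_sub_one_of_pos (show 0 < L by linarith)
        linarith
      have hzL : (z : ℝ) ≤ L := by nlinarith
      rw [mul_one_div, le_div_iff₀ hLL]
      calc (K : ℝ) * z * Real.log L ≤ Real.exp ((1 - ε) * L) * L * L := by
            gcongr
        _ = Real.exp ((1 - ε) * L) * L ^ 2 := by ring
        _ ≤ Real.exp ((1 - ε) * L) * Real.exp (ε * L) := by gcongr
        _ = X := by rw [← Real.exp_add, hXL]; congr 1; ring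
    have h6 : (((Icc 1 X).filter (fun n => ∃ p ∈ P, p < n ∧ (2 * n - p).Prime)).card : ℝ) ≤
        K * z + ((WW z).totient : ℝ) * ((X / WW z + 1 : ℕ) : ℝ) := by
      exact_mod_cast h1'
    have h7 : 0 ≤ (X : ℝ) * (1 / Real.log L) := by positivity
    calc _ ≤ _ := h6
      _ ≤ X * (1 / Real.log L) + 4 * C * (X * (1 / Real.log L)) := add_le_add h5 h4
      _ ≤ _ := by nlinarith

end Pool.Agent.MPS11
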